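import Pool.Agent.H68.GHY.Targets

/-!
# Board ghy_modules, row PSB: bounds for the weights
-/

set_option autoImplicit false

namespace Pool.Agent.H89.GHY

open MeasureTheory Pool.Agent.H34.GM Pool.Agent.H34.GZ Pool.Agent.H34.GU Pool.Agent.H34.GA
open Pool.Agent.H68.GHY

/-! ### continuity -/

theorem psb_mt_cont {m : ℕ} : Continuous fun z : V m => mt z := continuous_id

theorem psb_det_cont {m : ℕ} : Continuous fun z : V m => (mt z).det :=
  (psb_mt_cont (m := m)).matrix_det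

theorem psb_sz_cont {m : ℕ} : Continuous fun z : V m => sz (mt z) := by
  have h1 : (fun z : V m => sz (mt z)) = fun z : V m => ‖z‖ := rfl
  rw [h1]
  exact continuous_norm

theorem psb_sz_nonneg {m : ℕ} (z : Mat m) : 0 ≤ sz z := norm_nonneg _

theorem psb_sz_smul {m : ℕ} (c : ℝ) (hc : 0 < c) (z : Mat m) : sz (c • z) = c * sz z := by
  unfold sz
  have h1 : ((fun i j => (c • z) i j) : V m) = c • ((fun i j => z i j) : V m) := rfl
  rw [h1, norm_smul, Real.norm_of_nonneg hc.le]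

theorem psb_entry {m : ℕ} (z : Mat m) (i j : Fin m) : |z i j| ≤ sz z := by
  have h1 := norm_le_pi_norm ((fun i j => z i j) : V m) i
  have h2 := norm_le_pi_norm (((fun i j => z i j) : V m) i) j
  exact h2.trans h1

theorem psb_det_le {m : ℕ} (z : Mat m) (h : sz z ≤ 2) :
    |z.det| ≤ (Nat.factorial m : ℝ) * 2 ^ m := by
  have h1 := Matrix.det_le (A := z) (abv := AbsoluteValue.abs) (x := (2 : ℝ))
    (fun i j => (psb_entry z i j).trans h)
  rw [Fintype.card_fin, nsmul_eq_mul] at h1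
  exact h1

theorem psb_norm_ee (x : ℝ) : ‖Pool.Agent.H34.GM.ee x‖ = 1 := by
  unfold Pool.Agent.H34.GM.ee
  rw [show 2 * (Real.pi : ℂ) * Complex.I * (x : ℂ) = ((2 * Real.pi * x : ℝ) : ℂ) * Complex.I by
    push_cast; ring]
  exact Complex.norm_exp_ofReal_mul_I _

theorem psb_ee_cont : Continuous Pool.Agent.H34.GM.ee := by
  unfold Pool.Agent.H34.GM.ee
  fun_prop

/-- the Fourier transform of a test function is continuous -/
theorem psb_cf_cont {m : ℕ} (Φ : Mat m → ℂ) (hΦ : Tg m Φ) :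
    Continuous (Pool.Agent.H34.GA.cf Φ) := by
  have hc : Continuous fun z : V m => Φ (mt z) := hΦ.cont.comp psb_mt_cont
  obtain ⟨c, hc0, hs⟩ := hΦ.supp
  have hcs : HasCompactSupport fun z : V m => Φ (mt z) := by
    refine HasCompactSupport.intro (isCompact_closedBall (0 : V m) c) ?_
    intro z hz
    by_contra h
    apply hz
    rw [mem_closedBall_zero_iff]
    exact (hs _ h).1
  have hi : Integrable (fun z : V m => Φ (mt z)) volume := hc.integrable_of_hasCompactSupport hcs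
  have h0 : Continuous fun w : V m => ft Φ (mt w) := by
    unfold ft
    refine continuous_of_dominated (bound := fun z : V m => ‖Φ (mt z)‖) ?_ ?_ hi.norm ?_
    · intro w
      have h2 : Continuous fun z : V m => (mt w * mt z).trace :=
        (continuous_const.matrix_mul psb_mt_cont).matrix_trace
      exact (hc.mul (psb_ee_cont.comp h2.neg)).aestronglyMeasurable
    · intro w
      refine Filter.Eventually.of_forall fun z => ?_
      rw [norm_mul, psb_norm_ee, mul_one]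
    · refine Filter.Eventually.of_forall fun z => ?_
      have h2 : Continuous fun w : V m => (mt w * mt z).trace :=
        (psb_mt_cont.matrix_mul continuous_const).matrix_trace
      exact continuous_const.mul (psb_ee_cont.comp h2.neg)
  have h1 : Continuous (ft Φ) := by
    have h2 : Continuous fun w : Mat m => ((fun i j => w i j) : V m) := continuous_id
    exact h0.comp h2
  exact Complex.continuous_conj.comp h1

/-! ### the differential operator -/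

theorem psb_TgS {m : ℕ} (hTEU : T_TEU) (hm1 : 1 ≤ m) (Φ : Mat m → ℂ) (hΦ : TgS m Φ) (l : ℕ) :
    TgS m (dD^[l] Φ) := by
  induction l with
  | zero => exact hΦ
  | succ l ih =>
    rw [Function.iterate_succ_apply']
    exact (hTEU m hm1 _ ih).2.2.1

theorem psb_cf_iter {m : ℕ} (hTEU : T_TEU) (hFDD : T_FDD) (hm1 : 1 ≤ m) (Φ : Mat m → ℂ)
    (hΦ : TgS m Φ) (l : ℕ) (w : Mat m) :
    Pool.Agent.H34.GA.cf (dD^[l] Φ) w =
      ((starRingEnd ℂ) ((2 * Real.pi * Complex.I) ^ m) * (w.det : ℂ)) ^ l *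
        Pool.Agent.H34.GA.cf Φ w := by
  induction l with
  | zero => rw [pow_zero, one_mul]; rfl
  | succ l ih =>
    rw [Function.iterate_succ_apply', (hFDD m hm1 _ (psb_TgS hTEU hm1 Φ hΦ l)).1 w, ih,
      pow_succ]
    ring

theorem psb_supp_one {m : ℕ} (Φ : Mat m → ℂ) (z : V m) (h : dD Φ (mt z) ≠ 0) :
    z ∈ tsupport fun w : V m => Φ (mt w) := by
  by_contra hz
  apply h
  have h1 : iteratedFDeriv ℝ m (fun w : V m => Φ (mt w)) z = 0 := by
    by_contra h2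
    exact hz (support_iteratedFDeriv_subset m h2)
  unfold dD
  refine Finset.sum_eq_zero fun σ _ => ?_
  have h3 : iteratedFDeriv ℝ m (fun w : V m => Φ (mt w)) (fun i j => (mt z) i j) = 0 := h1
  rw [h3]
  simp

theorem psb_supp {m : ℕ} (Φ : Mat m → ℂ) (l : ℕ) (z : V m) (h : (dD^[l] Φ) (mt z) ≠ 0) :
    z ∈ tsupport fun w : V m => Φ (mt w) := by
  induction l generalizing z with
  | zero => exact subset_tsupport _ h
  | succ l ih =>
    rw [Function.iterate_succ_apply'] at h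
    have h1 := psb_supp_one _ z h
    have h2 : (tsupport fun w : V m => (dD^[l] Φ) (mt w)) ⊆ tsupport fun w : V m => Φ (mt w) :=
      closure_minimal (fun w hw => ih w hw) (isClosed_tsupport _)
    exact h2 h1

/-! ### the normalised matrices -/

theorem psb_aN_pow {m : ℕ} (hm1 : 1 ≤ m) (z : Mat m) : aN z ^ m = |z.det| := by
  have h0 : (m : ℝ) ≠ 0 := by
    have : (1 : ℝ) ≤ m := by exact_mod_cast hm1
    linarith
  unfold aN
  rw [← Real.rpow_natCast, ← Real.rpow_mul (abs_nonneg _), one_div_mul_cancel h0, Real.rpow_one]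

theorem psb_det_smul {m : ℕ} (hm1 : 1 ≤ m) (r : ℝ) (z : Mat m) (hz : 1 ≤ aN z) :
    ((r⁻¹ * (aN z)⁻¹) • z).det = (if 0 < z.det then 1 else -1) * (r⁻¹) ^ m := by
  have ha : aN z ≠ 0 := by
    intro h
    rw [h] at hz
    linarith
  have hd : z.det = (if 0 < z.det then 1 else -1) * aN z ^ m := by
    rw [psb_aN_pow hm1]
    by_cases h : 0 < z.det
    · rw [if_pos h, abs_of_pos h, one_mul]
    · rw [if_neg h, abs_of_nonpos (not_lt.1 h)]
      ring
  rw [Matrix.det_smul, Fintype.card_fin]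
  have e : (r⁻¹ * (aN z)⁻¹) ^ m * z.det = (r⁻¹) ^ m * ((aN z)⁻¹ ^ m * z.det) := by
    rw [mul_pow]
    ring
  rw [e]
  have e2 : (aN z)⁻¹ ^ m * z.det = if 0 < z.det then 1 else -1 := by
    conv_lhs => rw [hd]
    rw [mul_left_comm, ← mul_pow, inv_mul_cancel₀ ha, one_pow, mul_one]
  rw [e2, mul_comm]

theorem psb_Shell {m : ℕ} : MeasurableSet (Shell m) := by
  have h1 : Measurable fun z : V m => aN (mt z) := by
    unfold aN
    exact (psb_det_cont.abs.measurable).pow_const _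
  exact (measurableSet_le measurable_const h1).inter (measurableSet_lt h1 measurable_const)

/-- the coefficient function times the sign of the determinant -/
noncomputable def sgf {m : ℕ} (f : Mat m → ℂ) (z : Mat m) : ℂ :=
  (if 0 < z.det then 1 else -1) ^ m * f z

theorem psb_sgf {m : ℕ} (f : Mat m → ℂ) (hf : Cof m f 1) : Cof m (sgf f) 1 := by
  constructor
  · have h1 : Measurable fun z : V m => ((if 0 < (mt z).det then 1 else -1 : ℂ)) ^ m := by
      refine Measurable.pow_const (Measurable.ite ?_ measurable_const measurable_const) m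
      exact (isOpen_lt continuous_const psb_det_cont).measurableSet
    exact h1.aestronglyMeasurable.mul hf.meas
  · intro r hr z hz
    unfold sgf
    rw [hf.scal r hr z hz, Matrix.det_smul, Fintype.card_fin]
    have h1 : 0 < r ^ m * z.det ↔ 0 < z.det := by
      constructor
      · intro h
        exact (mul_pos_iff_of_pos_left (pow_pos hr m)).1 h
      · intro h
        exact mul_pos (pow_pos hr m) h
    simp only [h1]
  · intro z hz
    unfold sgf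
    rw [norm_mul, norm_pow]
    have h1 : ‖(if 0 < z.det then 1 else -1 : ℂ)‖ = 1 := by
      split_ifs <;> simp
    rw [h1, one_pow, one_mul]
    exact hf.bd z hz

/-- the transform of the derivative -/
theorem psb_uu {m : ℕ} (hTEU : T_TEU) (hFDD : T_FDD) (hm1 : 1 ≤ m) (Φ : Mat m → ℂ)
    (hΦ : TgS m Φ) (f : Mat m → ℂ) (δ r : ℝ) (hδ : 0 < δ) (hr : 0 < r) :
    uu (Pool.Agent.H34.GA.cf (dD^[m] Φ)) f r =
      ((starRingEnd ℂ) ((2 * Real.pi * Complex.I) ^ m)) ^ m * (((r⁻¹ ^ m) ^ m : ℝ) : ℂ) *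
        uu (fun v => Pool.Agent.H34.GA.cf Φ (δ⁻¹ • v)) (sgf f) (r / δ) := by
  unfold uu
  rw [← integral_const_mul]
  refine setIntegral_congr_fun psb_Shell fun z hz => ?_
  have hz1 : 1 ≤ aN (mt z) := hz.1
  have e1 : δ⁻¹ • (((r / δ)⁻¹ * (aN (mt z))⁻¹) • mt z) = (r⁻¹ * (aN (mt z))⁻¹) • mt z := by
    rw [smul_smul]
    congr 1
    field_simp
  change Pool.Agent.H34.GA.cf (dD^[m] Φ) ((r⁻¹ * (aN (mt z))⁻¹) • mt z) * f (mt z) =
    ((starRingEnd ℂ) ((2 * Real.pi * Complex.I) ^ m)) ^ m * (((r⁻¹ ^ m) ^ m : ℝ) : ℂ) *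
      (Pool.Agent.H34.GA.cf Φ (δ⁻¹ • (((r / δ)⁻¹ * (aN (mt z))⁻¹) • mt z)) * sgf f (mt z))
  rw [e1, psb_cf_iter hTEU hFDD hm1 Φ hΦ m, psb_det_smul hm1 r (mt z) hz1]
  unfold sgf
  have e2 : (((if 0 < (mt z).det then 1 else -1 : ℝ) * r⁻¹ ^ m : ℝ) : ℂ) =
      (if 0 < (mt z).det then 1 else -1 : ℂ) * ((r⁻¹ ^ m : ℝ) : ℂ) := by
    split_ifs <;> push_cast <;> ring
  rw [e2, mul_pow, mul_pow]
  push_cast
  ring

/-- the bound with one power -/
theorem psb_bound (hTEU : T_TEU) (hFDD : T_FDD) (hFTS : T_FTS) (hUBD : T_UBD) (hBIA : T_BIA)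
    (m : ℕ) (χ : ℝ → ℝ) (hm1 : 1 ≤ m) (hχ : Prof χ) (j : ℕ) :
    ∃ C : ℝ, 0 < C ∧ ∀ δ : ℝ, 0 < δ → δ ≤ 1 / 2 → ∀ f : Mat m → ℂ, Cof m f 1 →
      ∀ r : ℝ, 0 < r → ‖uu (Pool.Agent.H34.GA.cf (PH m χ δ)) f r‖ ≤ C * (r / δ) ^ j := by
  obtain ⟨N, C1, hC1, hU⟩ := hUBD m hm1 ((m ^ 2 + j : ℕ) : ℝ) (by push_cast; simp)
  obtain ⟨C2, hC2, hF⟩ := hFTS m χ N hm1 hχ
  obtain ⟨C3, -, hB⟩ := hBIA m χ hm1 hχ
  obtain ⟨k, hk⟩ : ∃ k : ℝ, k = ‖((starRingEnd ℂ) ((2 * Real.pi * Complex.I) ^ m)) ^ m‖ :=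
    ⟨_, rfl⟩
  have hk0 : 0 ≤ k := by
    rw [hk]
    exact norm_nonneg _
  refine ⟨(k + 1) * C1 * C2, by positivity, ?_⟩
  intro δ hδ hδ1 f hf r hr
  have hΦ : TgS m (bi m χ δ) := (hB δ hδ hδ1).1
  have h1 := psb_uu hTEU hFDD hm1 (bi m χ δ) hΦ f δ r hδ hr
  have h2 := (hU (sgf f) (fun v => Pool.Agent.H34.GA.cf (bi m χ δ) (δ⁻¹ • v)) 1
    (C2 * δ ^ (m ^ 2)) (psb_sgf f hf) zero_le_one (by positivity)
    ((psb_cf_cont _ hΦ.toTg).comp (continuous_const_smul δ⁻¹)) (by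
      intro z
      have h3 := hF δ hδ hδ1 (δ⁻¹ • z)
      rw [psb_sz_smul δ⁻¹ (inv_pos.2 hδ) z, ← mul_assoc, mul_inv_cancel₀ hδ.ne', one_mul] at h3
      exact h3) (r / δ) (by positivity)).2
  unfold PH
  rw [h1, norm_mul, norm_mul, ← hk, Complex.norm_real, Real.norm_of_nonneg (by positivity)]
  rw [Real.rpow_natCast] at h2
  have h4 : (r⁻¹ ^ m) ^ m * (δ ^ (m ^ 2) * (r / δ) ^ (m ^ 2)) = 1 := by
    rw [← mul_pow, mul_div_cancel₀ _ hδ.ne', ← pow_mul, ← sq, ← mul_pow,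
      inv_mul_cancel₀ hr.ne', one_pow]
  calc k * (r⁻¹ ^ m) ^ m * ‖uu (fun v => Pool.Agent.H34.GA.cf (bi m χ δ) (δ⁻¹ • v)) (sgf f)
        (r / δ)‖
      ≤ k * (r⁻¹ ^ m) ^ m * (C1 * 1 * (C2 * δ ^ (m ^ 2)) * (r / δ) ^ (m ^ 2 + j)) :=
        mul_le_mul_of_nonneg_left h2 (by positivity)
    _ = k * C1 * C2 * ((r⁻¹ ^ m) ^ m * (δ ^ (m ^ 2) * (r / δ) ^ (m ^ 2))) * (r / δ) ^ j := by
        rw [pow_add]
        ring
    _ = k * C1 * C2 * (r / δ) ^ j := by rw [h4, mul_one]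
    _ ≤ (k + 1) * C1 * C2 * (r / δ) ^ j := by
        have h5 : 0 < C1 * C2 * (r / δ) ^ j := by positivity
        nlinarith

/-- the support of the weight -/
theorem psb_support (hBIA : T_BIA) (m : ℕ) (χ : ℝ → ℝ) (hm1 : 1 ≤ m) (hχ : Prof χ) :
    ∃ r0 : ℝ, 1 < r0 ∧ ∀ δ : ℝ, 0 < δ → δ ≤ 1 / 2 → ∀ f : Mat m → ℂ,
      ∀ r : ℝ, 0 < r → uu (PH m χ δ) f r ≠ 0 → r0⁻¹ ≤ r ∧ r ≤ r0 := by
  obtain ⟨C, hC, hB⟩ := hBIA m χ hm1 hχ
  refine ⟨max 2 (max C ((Nat.factorial m : ℝ) * 2 ^ m)), lt_max_of_lt_left one_lt_two, ?_⟩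
  intro δ hδ hδ1 f r hr hne
  obtain ⟨r0, hr0⟩ : ∃ r0 : ℝ, r0 = max 2 (max C ((Nat.factorial m : ℝ) * 2 ^ m)) := ⟨_, rfl⟩
  rw [← hr0]
  have hr2 : 2 ≤ r0 := by
    rw [hr0]
    exact le_max_left _ _
  have hrC : C ≤ r0 := by
    rw [hr0]
    exact (le_max_left _ _).trans (le_max_right _ _)
  have hrB : (Nat.factorial m : ℝ) * 2 ^ m ≤ r0 := by
    rw [hr0]
    exact (le_max_right _ _).trans (le_max_right _ _)
  obtain ⟨z, hz, hz1⟩ : ∃ z ∈ Shell m, PH m χ δ ((r⁻¹ * (aN (mt z))⁻¹) • mt z) ≠ 0 := by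
    by_contra hcon
    push Not at hcon
    apply hne
    unfold uu
    refine setIntegral_eq_zero_of_forall_eq_zero fun z hz => ?_
    rw [hcon z hz, zero_mul]
  have hcl : IsClosed {w : V m | C⁻¹ ≤ |(mt w).det| ∧ sz (mt w) ≤ 2} :=
    (isClosed_le continuous_const psb_det_cont.abs).inter
      (isClosed_le psb_sz_cont continuous_const)
  have hsub : (tsupport fun w : V m => bi m χ δ (mt w)) ⊆
      {w : V m | C⁻¹ ≤ |(mt w).det| ∧ sz (mt w) ≤ 2} := by
    refine closure_minimal (fun w hw => ?_) hcl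
    have h1 := ((hB δ hδ hδ1).2 (mt w)).2.2.1 hw
    exact ⟨h1.2.1, h1.1⟩
  have hmem := hsub (psb_supp (bi m χ δ) m
    ((r⁻¹ * (aN (mt z))⁻¹) • z) (by
      have h2 : mt ((r⁻¹ * (aN (mt z))⁻¹) • z) = (r⁻¹ * (aN (mt z))⁻¹) • mt z := rfl
      rw [h2]
      exact hz1))
  obtain ⟨hlo, hsz⟩ := hmem
  have h3 : mt ((r⁻¹ * (aN (mt z))⁻¹) • z) = (r⁻¹ * (aN (mt z))⁻¹) • mt z := rfl
  have hup := psb_det_le _ hsz
  rw [h3, psb_det_smul hm1 r (mt z) hz.1] at hlo hup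
  have h4 : |(if 0 < (mt z).det then 1 else -1) * r⁻¹ ^ m| = r⁻¹ ^ m := by
    rw [abs_mul, abs_of_pos (pow_pos (inv_pos.2 hr) m)]
    split_ifs <;> simp
  rw [h4] at hlo hup
  have hm0 : m ≠ 0 := by omega
  constructor
  · rcases le_total 1 r with h | h
    · exact (inv_le_one_of_one_le₀ (by linarith)).trans h
    · have h5 : 1 ≤ r⁻¹ := (one_le_inv₀ hr).2 h
      have h6 : r⁻¹ ≤ r⁻¹ ^ m := le_self_pow₀ h5 hm0
      exact inv_le_of_inv_le₀ hr ((h6.trans hup).trans hrB)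
  · rcases le_total r 1 with h | h
    · linarith
    · have h5 : r ≤ r ^ m := le_self_pow₀ h hm0
      have h6 : r ^ m ≤ C := by
        rw [inv_pow] at hlo
        exact (inv_le_inv₀ (by positivity) (by positivity)).1 hlo
      exact (h5.trans h6).trans hrC

theorem pf_PSB (hPHB : T_PHB) (hFDD : T_FDD) (hFTS : T_FTS) (hUBD : T_UBD) (hMLZ : T_MLZ)
    (hBIA : T_BIA) (hTEU : T_TEU) : T_PSB := by
  intro m χ hm1 hχ
  obtain ⟨r0, hr0, hsupp⟩ := psb_support hBIA m χ hm1 hχ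
  refine ⟨r0, hr0, ?_⟩
  intro K
  obtain ⟨C0, hC0, h0⟩ := psb_bound hTEU hFDD hFTS hUBD hBIA m χ hm1 hχ 0
  obtain ⟨C1, hC1, h1⟩ := psb_bound hTEU hFDD hFTS hUBD hBIA m χ hm1 hχ K
  obtain ⟨C2, c2, A2, -, -, hW⟩ := hPHB χ hχ m hm1 1 0 one_pos
  refine ⟨max C0 C1, lt_max_of_lt_left hC0, ?_⟩
  intro δ hδ hδ1 f hf
  obtain ⟨hT, -, hw, -⟩ := hW δ hδ hδ1
  obtain ⟨-, hcont, hmel⟩ := hMLZ m hm1 f 1 hf (PH m χ δ) hT.toTg
  refine ⟨?_, (hw f hf).2.diff.continuousOn, hcont, fun r hr hne => hsupp δ hδ hδ1 f r hr hne,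
    hmel⟩
  intro r hr
  have hpos : 0 ≤ (r / δ) ^ K := by positivity
  rcases min_choice (1 : ℝ) ((r / δ) ^ K) with h | h
  · rw [h, mul_one]
    have h2 := h0 δ hδ hδ1 f hf r hr
    rw [pow_zero, mul_one] at h2
    exact h2.trans (le_max_left _ _)
  · rw [h]
    exact (h1 δ hδ hδ1 f hf r hr).trans (mul_le_mul_of_nonneg_right (le_max_right _ _) hpos)

end Pool.Agent.H89.GHY
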